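import Pool.Agent.KK.StmtsE

set_option autoImplicit false

namespace Pool.Agent.KK.E.H84

open Pool.Agent.KK Pool.Agent.KK.E

theorem good_cr (h19 : StmtE19) (h21 : StmtE21) (h22 : StmtE22)
    (V : Type) [Fintype V] [DecidableEq V] (H : Finset (Finset V)) (X : Finset V)
    (p q B : ℕ) (δ h β : ℝ) (η θ : ℕ → ℝ) (S T : Set (List V))
    (hA : Amb H X p q B δ) (hC : Cst (p + q + 2) B η θ h δ) (hβ : β ≤ δ)
    (hS : Alm X (low p q) S β) (hT : Alm X (high p q) T β)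
    (M F : Finset V) (hM : GoodM H X p q η θ M) (hF : F.card ≤ B) (hMF : Disjoint M F) :
    ∃ l, Cr H (p + q + 2) S T M F l := by
  obtain ⟨hMst, hcase⟩ := hM
  rcases hcase with ⟨h1, h2⟩ | ⟨h1, h2, h3, h4⟩ | ⟨h1, h2, h3, h4⟩
  · exact h19 V H X M F p q B δ h β η θ S T hA hC hβ hMst h1 h2 hF hMF hS hT
  · exact h21 V H X M F p q B δ h β η θ S T hA hC hβ hMst h1 h2 h3 h4 hF hMF hS hT
  · exact h22 V H X M F p q B δ h β η θ S T hA hC hβ hMst h1 h2 h3 h4 hF hMF hS hT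

theorem eta_bound (k B : ℕ) (η θ : ℕ → ℝ) (h e : ℝ) (hk : 2 ≤ k) (hC : Cst k B η θ h e)
    (he : 0 < e) : 100 * e ≤ η 0 := by
  have h1 := hC.dsmall
  have h2 := hC.hsmall
  have h3 := hC.hpos
  have h4 := hC.pos 0 (Nat.zero_le _)
  have hk2 : (2 : ℝ) ≤ (k : ℝ) := by exact_mod_cast hk
  have h7 : (1 : ℝ) ≤ 4 ^ k := one_le_pow₀ (by norm_num)
  have h7' : (1 : ℝ) ≤ 2 ^ k := one_le_pow₀ (by norm_num)
  have h5 : h ≤ 1 := by
    refine le_trans h2 ?_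
    have hpos : (0 : ℝ) < 8 * (k : ℝ) * 2 ^ k := by positivity
    rw [div_le_one hpos]
    calc (1 : ℝ) ≤ 8 * (k : ℝ) := by linarith
      _ = 8 * (k : ℝ) * 1 := by ring
      _ ≤ 8 * (k : ℝ) * 2 ^ k := mul_le_mul_of_nonneg_left h7' (by positivity)
  have h6 : η 0 * h ≤ η 0 := by
    calc η 0 * h ≤ η 0 * 1 := mul_le_mul_of_nonneg_left h5 h4.le
      _ = η 0 := mul_one _
  have hB : (0 : ℝ) ≤ (B : ℝ) := Nat.cast_nonneg B
  have h8 : (100 : ℝ) ≤ 100 * (k : ℝ) * 4 ^ k * ((B : ℝ) + 1) := by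
    calc (100 : ℝ) ≤ 100 * (k : ℝ) := by linarith
      _ = 100 * (k : ℝ) * 1 := by ring
      _ ≤ 100 * (k : ℝ) * 4 ^ k := mul_le_mul_of_nonneg_left h7 (by positivity)
      _ = 100 * (k : ℝ) * 4 ^ k * 1 := by ring
      _ ≤ 100 * (k : ℝ) * 4 ^ k * ((B : ℝ) + 1) :=
        mul_le_mul_of_nonneg_left (by linarith) (by positivity)
  have h9 : 100 * e ≤ 100 * (k : ℝ) * 4 ^ k * ((B : ℝ) + 1) * e :=
    mul_le_mul_of_nonneg_right h8 he.le
  linarith

theorem e_one (h15 : StmtE15) (h19 : StmtE19) (h21 : StmtE21) (h22 : StmtE22)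
    (h23 : StmtE23) (h24 : StmtE24) : StmtE25 := by
  intro p q B
  obtain ⟨η, θ, h, δ₀, hδ₀, hδ₀', hcst⟩ := h23 (p + q + 2) B (by omega)
  set k : ℕ := p + q + 2 with hk
  have hk2 : (2 : ℝ) ≤ (k : ℝ) := by
    have : 2 ≤ k := by omega
    exact_mod_cast this
  set d : ℝ := δ₀ / 8 with hd
  have hd0 : 0 < d := by rw [hd]; linarith
  have hd80 : d ≤ 1 / 80 := by rw [hd]; linarith
  have h4d : 0 < 4 * d := by linarith
  have h4d' : 4 * d ≤ δ₀ := by rw [hd]; linarith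
  have hC := hcst (4 * d) h4d h4d'
  set ε : ℝ := d / (100 * (k : ℝ)) with hε
  have hkpos : (0 : ℝ) < 100 * (k : ℝ) := by linarith
  have hε0 : 0 < ε := by rw [hε]; exact div_pos hd0 hkpos
  have hεk : 100 * (k : ℝ) * ε = d := by
    rw [hε]; field_simp
  have hεd : ε ≤ d / 2 := by
    have : 200 * ε ≤ 100 * (k : ℝ) * ε := by
      apply mul_le_mul_of_nonneg_right _ hε0.le
      linarith
    linarith
  refine ⟨ε, hε0, ⌈100 * ((p + q + 2 : ℕ) : ℝ) ^ 2 * ((B + p + q + 2 : ℕ) : ℝ) / d⌉₊, ?_⟩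
  intro V _ _ H X hn hU hD hX hDX S T hS hT
  set n : ℝ := (Fintype.card V : ℝ) with hnn
  have hn0 : 0 ≤ n := by rw [hnn]; positivity
  have hcompl : ((Xᶜ).card : ℝ) = n - (X.card : ℝ) := by
    have h1 : (Xᶜ).card + X.card = Fintype.card V := by
      rw [add_comm]; exact Finset.card_add_card_compl X
    have h2 : ((Xᶜ).card : ℝ) + (X.card : ℝ) = n := by
      rw [hnn]; exact_mod_cast h1
    linarith
  have hXabs := abs_le.mp hX
  have hεn : ε * n ≤ d / 2 * n := mul_le_mul_of_nonneg_right hεd hn0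
  have hbig : 100 * ((p + q + 2 : ℕ) : ℝ) ^ 2 * ((B + p + q + 2 : ℕ) : ℝ) ≤ d * n := by
    have h1 : 100 * ((p + q + 2 : ℕ) : ℝ) ^ 2 * ((B + p + q + 2 : ℕ) : ℝ) / d ≤ n :=
      le_trans (Nat.le_ceil _) (by rw [hnn]; exact_mod_cast hn)
    rw [div_le_iff₀ hd0] at h1
    linarith
  have hA : Amb H X p q B d := by
    refine ⟨hU, hD, hd0, by linarith, ?_, ?_, ?_, ?_, hbig⟩
    · nlinarith [hXabs.1]
    · nlinarith [hXabs.2]
    · rw [hcompl]; nlinarith [hXabs.2]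
    · rw [hcompl]; nlinarith [hXabs.1]
  obtain ⟨X', hNF, hA', hD', hAlm⟩ := h24 V H X p q B d ε hA hε0.le
    (by rw [← hk, hεk]) (by linarith) hDX
  have hlow : (low p q).length ≤ p + q + 2 := by
    simp [low]; omega
  have hhigh : (high p q).length ≤ p + q + 2 := by
    simp [high]; omega
  have hS' := hAlm (low p q) S ε hlow hS
  have hT' := hAlm (high p q) T ε hhigh hT
  have hβ : ε + d ≤ 4 * d := by linarith
  have hη0 : ε + d ≤ η 0 := by
    have := eta_bound k B η θ h (4 * d) (by omega) hC h4d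
    linarith
  rcases h15 V H X' p q B (4 * d) h η θ hA' hC hNF (le_trans hD' hη0) with ⟨Z, hZ, hZg⟩ | hall
  · left
    refine ⟨Z, hZ, ?_⟩
    intro z hz F hF hzF
    exact good_cr h19 h21 h22 V H X' p q B (4 * d) h (ε + d) η θ S T hA' hC hβ hS' hT'
      {z} F (hZg z hz) hF (by simpa using hzF)
  · right
    intro F hF
    obtain ⟨M, hM, hMF⟩ := hall F hF
    obtain ⟨l, hl⟩ := good_cr h19 h21 h22 V H X' p q B (4 * d) h (ε + d) η θ S T hA' hC hβ
      hS' hT' M F hM hF hMF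
    exact ⟨l, hl.1, hl.2.1, hl.2.2.1, hl.2.2.2.1, Finset.empty_subset _, hl.2.2.2.2.2⟩

end Pool.Agent.KK.E.H84
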