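import Pool.Agent.KK.StmtsE

set_option autoImplicit false

namespace Pool.Agent.KK.E.H84

open Pool.Agent.KK Pool.Agent.KK.E

section

variable {V : Type} [Fintype V] [DecidableEq V]

theorem path_rev (H : Finset (Finset V)) (k : ℕ) (l : List V) (h : Path H k l) :
    Path H k l.reverse := by
  refine ⟨List.nodup_reverse.mpr h.1, ?_⟩
  intro s hs hl
  have h1 : s.reverse <:+: l := by
    have h0 := List.reverse_infix.mpr hs
    simpa using h0
  have h2 := h.2 s.reverse h1 (by simpa using hl)
  rwa [List.toFinset_reverse] at h2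

theorem cr_rev (H : Finset (Finset V)) (k : ℕ) (hk : 1 ≤ k) (S T : Set (List V)) (F : Finset V)
    (l : List V) (h : Cr H k {a | a.reverse ∈ S} {a | a.reverse ∈ T} ∅ F l) :
    Cr H k T S ∅ F l.reverse := by
  obtain ⟨h1, h2, h3, h4, h5, h6⟩ := h
  refine ⟨path_rev H k l h1, by simpa using h2, ?_, ?_, Finset.empty_subset _, ?_⟩
  · have h7 : l.reverse.take (k - 1) = (l.drop (2 * k - 1)).reverse := by
      rw [List.take_reverse]
      congr 2
      omega
    rw [h7]; exact h4
  · have h7 : l.reverse.drop (2 * k - 1) = (l.take (k - 1)).reverse := by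
      rw [List.drop_reverse]
      congr 2
      omega
    rw [h7]; exact h3
  · rwa [List.toFinset_reverse]

theorem dens_equiv {ι κ : Type} [Fintype ι] [Fintype κ] (e : κ ≃ ι) (c : ι → Finset V)
    (P : (ι → V) → Prop) :
    dens (fun i => c (e i)) (fun f => P (fun i => f (e.symm i))) = dens c P := by
  have h1 : {f : ι → V | (∀ i, f i ∈ c i) ∧ P f} =
      (fun g : κ → V => fun i => g (e.symm i)) ''
        {f : κ → V | (∀ i, f i ∈ c (e i)) ∧ P (fun i => f (e.symm i))} := by
    ext f
    constructor
    · rintro ⟨ha, hb⟩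
      refine ⟨fun j => f (e j), ⟨fun j => ha (e j), ?_⟩, ?_⟩
      · simpa using hb
      · funext i; simp
    · rintro ⟨g, ⟨ha, hb⟩, rfl⟩
      refine ⟨fun i => ?_, hb⟩
      have := ha (e.symm i)
      simpa using this
  have h2 : {f : ι → V | (∀ i, f i ∈ c i) ∧ P f}.ncard =
      {f : κ → V | (∀ i, f i ∈ c (e i)) ∧ P (fun i => f (e.symm i))}.ncard := by
    rw [h1]
    apply Set.ncard_image_of_injective
    intro g g' hg
    funext j
    have := congrFun hg (e j)
    simpa using this
  unfold dens
  rw [h2]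
  congr 1
  exact Equiv.prod_comp e (fun i => ((c i).card : ℝ))

theorem alm_rev (X : Finset V) (w : List Bool) (S : Set (List V)) (β : ℝ)
    (h : Alm X w.reverse S β) : Alm X w {a | a.reverse ∈ S} β := by
  unfold Alm at h ⊢
  have hlen : w.length = w.reverse.length := by simp
  let e : Fin w.length ≃ Fin w.reverse.length := Fin.revPerm.trans (finCongr hlen)
  have key := dens_equiv (V := V) e (fun i : Fin w.reverse.length => sd X (w.reverse.get i))
    (fun a => List.ofFn a ∉ S)
  rw [← key] at h
  have hc : (fun i : Fin w.length => sd X (w.get i)) =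
      fun i : Fin w.length => sd X (w.reverse.get (e i)) := by
    funext i
    congr 1
    simp only [List.get_eq_getElem, List.getElem_reverse, e, Equiv.trans_apply,
      Fin.revPerm_apply, finCongr_apply, Fin.val_cast, Fin.val_rev]
    congr 1
    have := i.isLt
    omega
  have hP : (fun a : Fin w.length → V => List.ofFn a ∉ {a : List V | a.reverse ∈ S}) =
      fun a : Fin w.length → V => List.ofFn (fun i => a (e.symm i)) ∉ S := by
    funext a
    have h3 : (List.ofFn a).reverse = List.ofFn (fun i => a (e.symm i)) := by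
      apply List.ext_getElem
      · simp
      · intro i h1 h2
        simp only [List.getElem_reverse, List.getElem_ofFn, List.length_ofFn]
        congr 1
        apply Fin.ext
        have : e.symm ⟨i, by simpa using h2⟩ = ⟨w.length - 1 - i, by
            have : i < w.length := by simpa using h1
            omega⟩ := by
          rw [Equiv.symm_apply_eq]
          apply Fin.ext
          simp only [e, Equiv.trans_apply, Fin.revPerm_apply, finCongr_apply, Fin.val_cast,
            Fin.val_rev]
          have : i < w.length := by simpa using h1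
          omega
        rw [this]
    change ((List.ofFn a).reverse ∉ S) = _
    rw [h3]
  rw [hc, hP]
  exact h

end

/-- Distinct representatives. -/
theorem sdr {α V : Type} [Fintype α] [DecidableEq V] (k : ℕ) (Z : α → Finset V)
    (hα : Fintype.card α ≤ k) (hZ : ∀ t, (Z t).card = k) :
    ∃ z : α → V, Function.Injective z ∧ ∀ t, z t ∈ Z t := by
  rw [← Finset.all_card_le_biUnion_card_iff_exists_injective]
  intro s
  rcases s.eq_empty_or_nonempty with rfl | ⟨t, ht⟩
  · simp
  · calc s.card ≤ Fintype.card α := Finset.card_le_univ s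
      _ ≤ k := hα
      _ = (Z t).card := (hZ t).symm
      _ ≤ (s.biUnion Z).card := Finset.card_le_card (Finset.subset_biUnion_of_mem Z ht)

/-- One crossing after the other. -/
theorem seq {α V : Type} [Fintype α] [DecidableEq α] [DecidableEq V] (k m B : ℕ)
    (hα : Fintype.card α ≤ k) (hB : k * m + k ≤ B)
    (z : α → V) (hz : Function.Injective z) (Q : α → Finset V → List V → Prop)
    (hlen : ∀ t F l, Q t F l → l.length ≤ m)
    (hdis : ∀ t F l, Q t F l → Disjoint l.toFinset F)
    (hQ : ∀ t (F : Finset V), F.card ≤ B → z t ∉ F → ∃ l, Q t F l)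
    (s : Finset α) :
    ∃ L : α → List V, (∀ t ∈ s, ∃ F, Q t F (L t)) ∧ (∀ t ∈ s, ∀ t', t' ≠ t → z t' ∉ L t) ∧
      ∀ t ∈ s, ∀ t' ∈ s, t ≠ t' → List.Disjoint (L t) (L t') := by
  induction s using Finset.induction_on with
  | empty => exact ⟨fun _ => [], by simp, by simp, by simp⟩
  | insert a s ha ih =>
    obtain ⟨L, h1, h2, h3⟩ := ih
    set F : Finset V := s.biUnion (fun t => (L t).toFinset) ∪
      (Finset.univ.filter fun t => t ≠ a).image z with hF
    have hcs : s.card ≤ k := le_trans (Finset.card_le_univ s) hα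
    have hFc : F.card ≤ B := by
      refine le_trans (Finset.card_union_le _ _) (le_trans (Nat.add_le_add ?_ ?_) hB)
      · refine le_trans (Finset.card_biUnion_le_card_mul s _ m ?_) (Nat.mul_le_mul_right m hcs)
        intro t ht
        obtain ⟨F', hF'⟩ := h1 t ht
        exact le_trans (List.toFinset_card_le _) (hlen t F' (L t) hF')
      · exact le_trans Finset.card_image_le (le_trans (Finset.card_le_univ _) hα)
    have hza : z a ∉ F := by
      rw [hF, Finset.mem_union, not_or]
      constructor
      · simp only [Finset.mem_biUnion, List.mem_toFinset, not_exists, not_and]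
        intro t ht hmem
        exact h2 t ht a (by rintro rfl; exact ha ht) hmem
      · simp only [Finset.mem_image, Finset.mem_filter, Finset.mem_univ, true_and, not_exists,
          not_and]
        intro t ht hzt
        exact ht (hz hzt)
    obtain ⟨l, hl⟩ := hQ a F hFc hza
    have hld := hdis a F l hl
    have hlF : ∀ v ∈ l, v ∉ F := by
      intro v hv hvF
      exact (Finset.disjoint_left.mp hld) (List.mem_toFinset.mpr hv) hvF
    have hlz : ∀ t', t' ≠ a → z t' ∉ l := by
      intro t' ht' hmem
      apply hlF _ hmem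
      rw [hF, Finset.mem_union]
      right
      exact Finset.mem_image.mpr ⟨t', by simpa using ht', rfl⟩
    have hlL : ∀ t ∈ s, List.Disjoint l (L t) := by
      intro t ht v hv hv'
      apply hlF v hv
      rw [hF, Finset.mem_union]
      left
      exact Finset.mem_biUnion.mpr ⟨t, ht, List.mem_toFinset.mpr hv'⟩
    have hne : ∀ t ∈ s, t ≠ a := by
      rintro t ht rfl
      exact ha ht
    refine ⟨Function.update L a l, ?_, ?_, ?_⟩
    · intro t ht
      rcases Finset.mem_insert.mp ht with hta | hts
      · exact ⟨F, by rw [hta, Function.update_self]; exact hl⟩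
      · rw [Function.update_of_ne (hne t hts)]; exact h1 t hts
    · intro t ht t' ht'
      rcases Finset.mem_insert.mp ht with hta | hts
      · rw [hta, Function.update_self]; exact hlz t' (hta ▸ ht')
      · rw [Function.update_of_ne (hne t hts)]; exact h2 t hts t' ht'
    · intro t ht t' ht' htt
      rcases Finset.mem_insert.mp ht with hta | hts
      · rcases Finset.mem_insert.mp ht' with hta' | hts'
        · exact absurd (hta.trans hta'.symm) htt
        · rw [hta, Function.update_self, Function.update_of_ne (hne t' hts')]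
          exact hlL t' hts'
      · rcases Finset.mem_insert.mp ht' with hta' | hts'
        · rw [hta', Function.update_self, Function.update_of_ne (hne t hts)]
          exact (hlL t hts).symm
        · rw [Function.update_of_ne (hne t hts), Function.update_of_ne (hne t' hts')]
          exact h3 t hts t' hts' htt

theorem e_all (h25 : StmtE25) : StmtE26 := by
  intro k hk
  have key : ∀ j : ℕ, ∃ ε : ℝ, 0 < ε ∧ ∃ n₀ : ℕ, 1 ≤ j → j + 1 ≤ k →
      ∀ (V : Type) [Fintype V] [DecidableEq V]
      (H : Finset (Finset V)) (X : Finset V), n₀ ≤ Fintype.card V → Uni H k →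
      Dirac H k → |(X.card : ℝ) - (Fintype.card V : ℝ) / 2| ≤ ε * Fintype.card V →
      D H X ∅ j (k - j) ≤ ε → ∀ S T : Set (List V), Alm X (low (j - 1) (k - 1 - j)) S ε →
      Alm X (high (j - 1) (k - 1 - j)) T ε →
      (∃ Z : Finset V, Z.card = k ∧ ∀ z ∈ Z, ∀ F : Finset V, F.card ≤ 3 * k ^ 2 → z ∉ F →
        ∃ l, Cr H k S T {z} F l) ∨
      ∀ F : Finset V, F.card ≤ 3 * k ^ 2 → ∃ l, Cr H k S T ∅ F l := by
    intro j
    by_cases hj : 1 ≤ j ∧ j + 1 ≤ k
    · have e1 : j - 1 + (k - 1 - j) + 2 = k := by omega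
      have e2 : j - 1 + 1 = j := by omega
      have e3 : k - 1 - j + 1 = k - j := by omega
      obtain ⟨ε, hε, n₀, h⟩ := h25 (j - 1) (k - 1 - j) (3 * k ^ 2)
      refine ⟨ε, hε, n₀, fun _ _ => ?_⟩
      rw [e1, e2, e3] at h
      exact h
    · refine ⟨1, one_pos, 0, fun h1 h2 => absurd ⟨h1, h2⟩ hj⟩
  choose ε hε n₀ hmain using key
  have hne : (Finset.range (k + 1)).Nonempty := ⟨0, by simp⟩
  set ε' : ℝ := (Finset.range (k + 1)).inf' hne ε with hε'
  have hε'0 : 0 < ε' := by
    rw [hε', Finset.lt_inf'_iff]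
    intro i _
    exact hε i
  refine ⟨ε', hε'0, max k ((Finset.range (k + 1)).sup n₀), ?_⟩
  intro V _ _ H X J S T hn hU hD hX hJ hall
  have hVk : k ≤ Fintype.card V := le_trans (le_max_left _ _) hn
  have hεj : ∀ j ∈ J, ε' ≤ ε j := by
    intro j hj
    obtain ⟨_, h2, _⟩ := hall j hj
    exact Finset.inf'_le ε (Finset.mem_range.mpr (by omega))
  have hnj : ∀ j ∈ J, n₀ j ≤ Fintype.card V := by
    intro j hj
    obtain ⟨_, h2, _⟩ := hall j hj
    refine le_trans ?_ (le_trans (le_max_right _ _) hn)
    exact Finset.le_sup (f := n₀) (Finset.mem_range.mpr (by omega))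
  obtain ⟨Z₀, hZ₀, hZ₀c⟩ := Finset.exists_subset_card_eq (s := (Finset.univ : Finset V)) (n := k)
    (by simpa using hVk)
  -- classes of the tasks
  let S' : J × Bool → Set (List V) := fun t => if t.2 then S t.1 else {a | a.reverse ∈ S t.1}
  let T' : J × Bool → Set (List V) := fun t => if t.2 then T t.1 else {a | a.reverse ∈ T t.1}
  have htask : ∀ t : J × Bool, ∃ Z : Finset V, Z.card = k ∧ ∀ z ∈ Z, ∀ F : Finset V,
      F.card ≤ 3 * k ^ 2 → z ∉ F → ∃ l, Cr H k (S' t) (T' t) ∅ F l := by
    rintro ⟨⟨j, hj⟩, b⟩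
    obtain ⟨a1, a2, a3, a4, a5, a6, a7⟩ := hall j hj
    have hε1 := hεj j hj
    have hX1 : |(X.card : ℝ) - (Fintype.card V : ℝ) / 2| ≤ ε j * Fintype.card V :=
      le_trans hX (mul_le_mul_of_nonneg_right hε1 (Nat.cast_nonneg _))
    have b1 : Alm X (low (j - 1) (k - 1 - j)) (S' (⟨j, hj⟩, b)) (ε j) := by
      cases b
      · simp only [S', Bool.false_eq_true, if_false]
        exact alm_rev X _ _ _ (le_trans a6 hε1)
      · simp only [S', if_true]
        exact le_trans a4 hε1
    have b2 : Alm X (high (j - 1) (k - 1 - j)) (T' (⟨j, hj⟩, b)) (ε j) := by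
      cases b
      · simp only [T', Bool.false_eq_true, if_false]
        exact alm_rev X _ _ _ (le_trans a7 hε1)
      · simp only [T', if_true]
        exact le_trans a5 hε1
    rcases hmain j a1 a2 V H X (hnj j hj) hU hD hX1 (le_trans a3 hε1) _ _ b1 b2 with
      ⟨Z, hZ, hZl⟩ | hF
    · refine ⟨Z, hZ, fun z hz F hF hzF => ?_⟩
      obtain ⟨l, hl⟩ := hZl z hz F hF hzF
      exact ⟨l, hl.1, hl.2.1, hl.2.2.1, hl.2.2.2.1, Finset.empty_subset _, hl.2.2.2.2.2⟩
    · exact ⟨Z₀, hZ₀c, fun z _ F hF' _ => hF F hF'⟩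
  choose Z hZc hZl using htask
  have hcard : Fintype.card (J × Bool) ≤ k := by
    rw [Fintype.card_prod, Fintype.card_coe, Fintype.card_bool]
    omega
  obtain ⟨z, hz, hzZ⟩ := sdr k Z hcard hZc
  have hB : k * (3 * k - 2) + k ≤ 3 * k ^ 2 := by
    obtain ⟨m, rfl⟩ : ∃ m, k = m + 1 := ⟨k - 1, by omega⟩
    have : 3 * (m + 1) - 2 = 3 * m + 1 := by omega
    rw [this]
    nlinarith
  obtain ⟨L, hL1, _, hL3⟩ := seq (α := J × Bool) k (3 * k - 2) (3 * k ^ 2) hcard hB z hz
    (fun t F l => Cr H k (S' t) (T' t) ∅ F l)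
    (fun t F l h => le_of_eq h.2.1) (fun t F l h => h.2.2.2.2.2)
    (fun t F hF hzF => hZl t (z t) (hzZ t) F hF hzF) Finset.univ
  have hcr : ∀ t, Cr H k (S' t) (T' t) ∅ ∅ (L t) := by
    intro t
    obtain ⟨F, hF⟩ := hL1 t (Finset.mem_univ t)
    exact ⟨hF.1, hF.2.1, hF.2.2.1, hF.2.2.2.1, Finset.empty_subset _, by simp⟩
  have hdj : ∀ t t', t ≠ t' → List.Disjoint (L t) (L t') := fun t t' h =>
    hL3 t (Finset.mem_univ t) t' (Finset.mem_univ t') h
  refine ⟨fun j => if hj : j ∈ J then L (⟨j, hj⟩, true) else [],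
    fun j => if hj : j ∈ J then (L (⟨j, hj⟩, false)).reverse else [], ?_, ?_, ?_⟩
  · intro j hj
    simp only [hj, dif_pos]
    constructor
    · have := hcr (⟨j, hj⟩, true)
      simpa only [S', T', if_true] using this
    · have := hcr (⟨j, hj⟩, false)
      simp only [S', T', Bool.false_eq_true, if_false] at this
      exact cr_rev H k (by omega) (S j) (T j) ∅ _ this
  · intro i hi j hj
    simp only [hi, hj, dif_pos]
    intro v h1 h2
    exact hdj (⟨i, hi⟩, true) (⟨j, hj⟩, false) (by simp) h1 (List.mem_reverse.mp h2)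
  · intro i hi j hj hij
    simp only [hi, hj, dif_pos]
    constructor
    · exact hdj (⟨i, hi⟩, true) (⟨j, hj⟩, true) (by simp [hij])
    · intro v h1 h2
      exact hdj (⟨i, hi⟩, false) (⟨j, hj⟩, false) (by simp [hij]) (List.mem_reverse.mp h1)
        (List.mem_reverse.mp h2)

end Pool.Agent.KK.E.H84
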