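import Pool.Agent.KK.StmtsG

set_option autoImplicit false

namespace Pool.Agent.KK.E.H84

open Pool.Agent.KK Pool.Agent.KK.E

theorem blk_getD (k t i : ℕ) : (blk k t).getD i false = decide (i < t) := by
  unfold blk
  rw [List.getD_eq_getElem?_getD]
  by_cases h : i < t
  · rw [List.getElem?_append_left (by simpa using h)]
    simp [h]
  · rw [List.getElem?_append_right (by simpa using h)]
    simp only [List.getElem?_replicate, List.length_replicate]
    split_ifs <;> simp [h]

theorem per_blk (k t a m : ℕ) (ht : t ≤ k) :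
    per (blk k t) a m = (List.range m).map fun i => decide ((a + i) % k < t) := by
  unfold per
  apply List.map_congr_left
  intro i _
  rw [blk_getD]
  congr 2
  have : (blk k t).length = k := by simp [blk]; omega
  rw [this]

theorem low_per (p q : ℕ) : low p q = per (blk (p + q + 2) p) (p + 2) (p + q + 1) := by
  rw [per_blk _ _ _ _ (by omega)]
  apply List.ext_getElem
  · simp [low]; omega
  · intro i h1 h2
    have hi : i < p + q + 1 := by simpa using h2
    simp only [low, List.getElem_append, List.getElem_replicate, List.length_append,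
      List.length_replicate, List.getElem_singleton, List.getElem_map, List.getElem_range]
    have key : (p + 2 + i) % (p + q + 2) = if i < q then p + 2 + i else i - q := by
      split_ifs with h
      · exact Nat.mod_eq_of_lt (by omega)
      · have : p + 2 + i = (i - q) + (p + q + 2) := by omega
        rw [this, Nat.add_mod_right]
        exact Nat.mod_eq_of_lt (by omega)
    rw [key]
    split_ifs <;> symm <;> simp <;> omega

theorem high_per (p q : ℕ) : high p q = per (blk (p + q + 2) (p + 2)) (p + 1) (p + q + 1) := by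
  rw [per_blk _ _ _ _ (by omega)]
  have e : high p q = [true] ++ List.replicate q false ++ List.replicate p true := by
    simp [high]
  rw [e]
  apply List.ext_getElem
  · simp; omega
  · intro i h1 h2
    have hi : i < p + q + 1 := by simpa using h2
    simp only [List.getElem_append, List.getElem_replicate, List.length_append,
      List.length_replicate, List.getElem_singleton, List.getElem_map, List.getElem_range,
      List.length_singleton]
    have key : (p + 1 + i) % (p + q + 2) = if i < q + 1 then p + 1 + i else i - q - 1 := by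
      split_ifs with h
      · exact Nat.mod_eq_of_lt (by omega)
      · have : p + 1 + i = (i - q - 1) + (p + q + 2) := by omega
        rw [this, Nat.add_mod_right]
        exact Nat.mod_eq_of_lt (by omega)
    rw [key]
    split_ifs <;> symm <;> simp <;> omega

theorem mixR_per (p q μ : ℕ) (hμ : μ ≤ p + 1) :
    (List.replicate (μ + 1) true ++ List.replicate q false ++
      List.replicate p true).take (p + q + 1) =
      per (blk (p + q + 2) (p + 2)) (p + 1 - μ) (p + q + 1) := by
  rw [per_blk _ _ _ _ (by omega)]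
  apply List.ext_getElem
  · simp; omega
  · intro i h1 h2
    have hi : i < p + q + 1 := by simpa using h2
    simp only [List.getElem_take, List.getElem_append, List.getElem_replicate, List.length_append,
      List.length_replicate, List.getElem_map, List.getElem_range]
    have key : (p + 1 - μ + i) % (p + q + 2) =
        if i < μ + 1 + q then p + 1 - μ + i else i - μ - q - 1 := by
      split_ifs with h
      · exact Nat.mod_eq_of_lt (by omega)
      · have : p + 1 - μ + i = (i - μ - q - 1) + (p + q + 2) := by omega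
        rw [this, Nat.add_mod_right]
        exact Nat.mod_eq_of_lt (by omega)
    rw [key]
    split_ifs <;> symm <;> simp <;> omega

theorem mixL_per (p q μ : ℕ) (hμ : μ ≤ q + 1) :
    ((List.replicate (μ + 1) false ++ List.replicate p true ++
      List.replicate q false).take (p + q + 1)).reverse =
      per (blk (p + q + 2) p) (p + 2 + μ) (p + q + 1) := by
  rw [per_blk _ _ _ _ (by omega)]
  apply List.ext_getElem
  · simp
  · intro i h1 h2
    have hi : i < p + q + 1 := by simpa using h2
    have hlen : ((List.replicate (μ + 1) false ++ List.replicate p true ++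
      List.replicate q false).take (p + q + 1)).length = p + q + 1 := by
      simp
    simp only [List.getElem_reverse, hlen, List.getElem_take, List.getElem_append,
      List.getElem_replicate, List.length_append,
      List.length_replicate, List.getElem_map, List.getElem_range]
    have key : (p + 2 + μ + i) % (p + q + 2) =
        if μ + i < q then p + 2 + μ + i else μ + i - q := by
      split_ifs with h
      · exact Nat.mod_eq_of_lt (by omega)
      · have : p + 2 + μ + i = (μ + i - q) + (p + q + 2) := by omega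
        rw [this, Nat.add_mod_right]
        exact Nat.mod_eq_of_lt (by omega)
    rw [key]
    split_ifs <;> symm <;> simp <;> omega

theorem wt_low (p q : ℕ) : wt (low p q) = p := by
  simp [wt, low, List.count_replicate]

theorem wt_high (p q : ℕ) : wt (high p q) = p + 1 := by
  simp [wt, high, List.count_replicate]

theorem len_low (p q : ℕ) : (low p q).length = p + q + 1 := by
  simp [low]; omega

theorem len_high (p q : ℕ) : (high p q).length = p + q + 1 := by
  simp [high]; omega

/-- Pigeonhole over finitely many classes. -/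
theorem pig {V ι : Type} [DecidableEq V] [Fintype ι] (cls : ι → Finset V → Prop) (C : Finset V)
    (K B : ℕ) (hB : Fintype.card ι * K + C.card ≤ B) (P : Finset V → Prop)
    (hP : ∀ F : Finset V, F.card ≤ B → ∃ M, P M ∧ Disjoint M F)
    (hcls : ∀ M, P M → Disjoint M C → ∃ i, cls i M) :
    ∃ i, ∀ Z : Finset V, Z.card ≤ K → ∃ M, P M ∧ cls i M ∧ Disjoint M Z := by
  classical
  by_contra hcon
  push Not at hcon
  choose Z hZ hZ' using hcon
  have hcard : (Finset.univ.biUnion Z ∪ C).card ≤ B := by
    refine le_trans (Finset.card_union_le _ _) (le_trans (Nat.add_le_add_right ?_ _) hB)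
    exact Finset.card_biUnion_le_card_mul _ _ K (fun i _ => hZ i)
  obtain ⟨M, hM, hMF⟩ := hP _ hcard
  rw [Finset.disjoint_union_right] at hMF
  obtain ⟨i, hi⟩ := hcls M hM hMF.2
  exact hZ' i M hM hi (Finset.disjoint_of_subset_right
    (Finset.subset_biUnion_of_mem Z (Finset.mem_univ i)) hMF.1)

theorem g_knd (h05 : StmtG05) (h06 : StmtG06) (h07 : StmtG07) (h09 : StmtG09) (h14 : StmtG14) :
    StmtG15 := by
  classical
  intro V _ _ H X C p q K δ h ε η θ hpq hA hCst h0 hC hCc hgood
  set B : ℕ := (p + q + 5) * (K + 1) with hB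
  have hKB : ∀ Z : Finset V, Z.card ≤ K → Z.card ≤ B := by
    intro Z hZ
    have h1 : K ≤ B := by
      rw [hB]
      nlinarith
    omega
  let cls : Fin 3 ⊕ (Fin p ⊕ Fin q) → Finset V → Prop := fun i M =>
    match i with
    | Sum.inl 0 => (M ∩ X).card = 1 ∧ (M \ X).card = 1
    | Sum.inl 1 => 2 ≤ (M \ X).card ∧ (M ∩ X).Nonempty
    | Sum.inl 2 => 2 ≤ (M ∩ X).card ∧ (M \ X).Nonempty
    | Sum.inr (Sum.inl μ) => M ⊆ X ∧ M.card = (μ : ℕ) + 2 ∧
        θ M.card < Mix H X M (p + 1 - M.card) q
    | Sum.inr (Sum.inr μ) => M ⊆ Xᶜ ∧ M.card = (μ : ℕ) + 2 ∧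
        θ M.card < Mix H X M p (q + 1 - M.card)
  have hpig := pig cls C K B (by
    simp only [Fintype.card_sum, Fintype.card_fin]
    rw [hB]
    nlinarith) (fun M => GoodM H X p q η θ M) hgood (by
    rintro M ⟨hMst, hcase⟩ hMC
    rcases hcase with ⟨h1, h2⟩ | ⟨h1, h2, h3, h4⟩ | ⟨h1, h2, h3, h4⟩
    · have c1 := h1.card_pos
      have c2 := h2.card_pos
      by_cases d1 : 2 ≤ (M ∩ X).card
      · exact ⟨Sum.inl 2, d1, h2⟩
      · by_cases d2 : 2 ≤ (M \ X).card
        · exact ⟨Sum.inl 1, d2, h1⟩
        · exact ⟨Sum.inl 0, by omega, by omega⟩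
    · have c1 := h1.card_pos
      by_cases d1 : 2 ≤ M.card
      · exact ⟨Sum.inr (Sum.inl ⟨M.card - 2, by omega⟩), h2, by simp; omega, h4⟩
      · exfalso
        obtain ⟨v, rfl⟩ := Finset.card_eq_one.mp (by omega : M.card = 1)
        exact (Finset.disjoint_left.mp hMC (Finset.mem_singleton_self v)) ((hC v).mpr hMst.1)
    · have c1 := h1.card_pos
      by_cases d1 : 2 ≤ M.card
      · exact ⟨Sum.inr (Sum.inr ⟨M.card - 2, by omega⟩), h2, by simp; omega, h4⟩
      · exfalso
        obtain ⟨v, rfl⟩ := Finset.card_eq_one.mp (by omega : M.card = 1)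
        exact (Finset.disjoint_left.mp hMC (Finset.mem_singleton_self v)) ((hC v).mpr hMst.1))
  obtain ⟨i, hi⟩ := hpig
  have hNon : ∀ M, GoodM H X p q η θ M → (M ∩ X).card ≤ p + 1 ∧ (M \ X).card ≤ q + 1 :=
    fun M hM => ⟨hM.1.1.1, hM.1.1.2.1⟩
  match i with
  | Sum.inl 0 =>
    left
    intro m₁ m₂ hlen hwt Z hZ
    obtain ⟨M, hM, ⟨c1, c2⟩, hMZ⟩ := hi Z hZ
    exact h07 V H X M Z p q B δ h ε η θ m₁ m₂ hpq hA hCst hM.1 (hKB Z hZ) hMZ c1 c2 (by omega)
      (by omega)
  | Sum.inl 1 =>
    right; left
    refine ⟨?_, ?_, ?_⟩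
    · obtain ⟨M, hM, ⟨c1, c2⟩, hMZ⟩ := hi ∅ (by simp)
      have := (hNon M hM).2
      omega
    · intro m hm hw Z hZ
      obtain ⟨M, hM, ⟨c1, c2⟩, hMZ⟩ := hi Z hZ
      exact (h05 V H X M Z p q B δ h ε η θ m hA hCst hM.1 (hKB Z hZ) hMZ (by omega)).1 c1
        (by omega)
    · refine ⟨p + 2, List.replicate (q + 1) false ++ List.replicate (p + 1) true, high p q, ?_, ?_,
        ?_, ?_, ?_⟩
      · simp; omega
      · simp; omega
      · rw [len_high]; omega
      · left; rw [wt_high]
      · have e1 : per (blk (p + q + 2) (p + 1 - 1)) (p + 2) (p + q + 2 - 1) = low p q := by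
          rw [low_per]; congr 1
        rw [e1]
        intro Z hZ
        obtain ⟨M, hM, ⟨c1, c2⟩, hMZ⟩ := hi Z hZ
        exact h06 V H X M Z p q B δ h ε η θ hA hCst hM.1 (hKB Z hZ) hMZ c2
          (Finset.card_pos.mp (by omega))
  | Sum.inl 2 =>
    right; right
    refine ⟨?_, ?_, ?_⟩
    · obtain ⟨M, hM, ⟨c1, c2⟩, hMZ⟩ := hi ∅ (by simp)
      have := (hNon M hM).1
      omega
    · intro m hm hw Z hZ
      obtain ⟨M, hM, ⟨c1, c2⟩, hMZ⟩ := hi Z hZ
      exact (h05 V H X M Z p q B δ h ε η θ m hA hCst hM.1 (hKB Z hZ) hMZ (by omega)).2 c1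
        (by omega)
    · refine ⟨p + 1, low p q, List.replicate (q + 1) false ++ List.replicate (p + 1) true, ?_, ?_,
        ?_, ?_, ?_⟩
      · simp; omega
      · simp; omega
      · rw [len_low]; omega
      · left; rw [wt_low]
      · have e1 : per (blk (p + q + 2) (p + 1 + 1)) (p + 1) (p + q + 2 - 1) = high p q := by
          rw [high_per]; congr 1
        rw [e1]
        intro Z hZ
        obtain ⟨M, hM, ⟨c1, c2⟩, hMZ⟩ := hi Z hZ
        exact h06 V H X M Z p q B δ h ε η θ hA hCst hM.1 (hKB Z hZ) hMZ
          (Finset.card_pos.mp (by omega)) c2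
  | Sum.inr (Sum.inl μ) =>
    have hμ := μ.isLt
    right; right
    refine ⟨by omega, ?_, ?_⟩
    · intro m hm hw Z hZ
      obtain ⟨M, hM, ⟨c1, c2, c3⟩, hMZ⟩ := hi Z hZ
      exact (h05 V H X M Z p q B δ h ε η θ m hA hCst hM.1 (hKB Z hZ) hMZ (by omega)).2
        (by rw [Finset.inter_eq_left.mpr c1]; omega) (by omega)
    · refine ⟨p + 1 - ((μ : ℕ) + 2), low p q, List.replicate (q + 1) false ++
        List.replicate (p + 2) true ++ List.replicate q false ++
          List.replicate (p + 1 - ((μ : ℕ) + 2)) true, ?_, ?_, ?_, ?_, ?_⟩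
      · simp; omega
      · simp; omega
      · rw [len_low]; omega
      · left; rw [wt_low]
      · have e1 : per (blk (p + q + 2) (p + 1 + 1)) (p + 1 - ((μ : ℕ) + 2)) (p + q + 2 - 1) =
            (List.replicate ((μ : ℕ) + 2 + 1) true ++ List.replicate q false ++
              List.replicate p true).take (p + q + 1) := by
          rw [mixR_per p q ((μ : ℕ) + 2) (by omega)]; congr 1
        rw [e1]
        intro Z hZ
        obtain ⟨M, hM, ⟨c1, c2, c3⟩, hMZ⟩ := hi Z hZ
        rw [← c2]
        exact h09 V H X M Z p q B δ h ε η θ hA hCst hM.1 (hKB Z hZ) hMZ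
          (Finset.card_pos.mp (by omega)) c1 (by omega) c3
  | Sum.inr (Sum.inr μ) =>
    have hμ := μ.isLt
    right; left
    refine ⟨by omega, ?_, ?_⟩
    · intro m hm hw Z hZ
      obtain ⟨M, hM, ⟨c1, c2, c3⟩, hMZ⟩ := hi Z hZ
      have c4 : M \ X = M := by
        rw [Finset.sdiff_eq_self_iff_disjoint]
        exact Finset.disjoint_left.mpr fun v hv hvX => (Finset.mem_compl.mp (c1 hv)) hvX
      exact (h05 V H X M Z p q B δ h ε η θ m hA hCst hM.1 (hKB Z hZ) hMZ (by omega)).1
        (by rw [c4]; omega) (by omega)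
    · refine ⟨p + 2 + ((μ : ℕ) + 2), List.replicate (q + 1 - ((μ : ℕ) + 2)) false ++
        List.replicate p true ++ List.replicate (q + 2) false ++ List.replicate (p + 1) true,
        high p q, ?_, ?_, ?_, ?_, ?_⟩
      · simp; omega
      · simp; omega
      · rw [len_high]; omega
      · left; rw [wt_high]
      · have e1 : per (blk (p + q + 2) (p + 1 - 1)) (p + 2 + ((μ : ℕ) + 2)) (p + q + 2 - 1) =
            ((List.replicate ((μ : ℕ) + 2 + 1) false ++ List.replicate p true ++
              List.replicate q false).take (p + q + 1)).reverse := by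
          rw [mixL_per p q ((μ : ℕ) + 2) (by omega)]; congr 1
        rw [e1]
        intro Z hZ
        obtain ⟨M, hM, ⟨c1, c2, c3⟩, hMZ⟩ := hi Z hZ
        rw [← c2]
        exact h14 V H X M Z p q B δ h ε η θ hA hCst hM.1 (hKB Z hZ) hMZ
          (Finset.card_pos.mp (by omega)) c1 (by omega) c3

end Pool.Agent.KK.E.H84
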