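import Pool.Agent.Helper77_KK.E_PAR
import Pool.Agent.KK.StmtsG

/-!
# G12: choice of the partition with the size of the change (variant of E24, proof of helper77)
-/

set_option autoImplicit false

open Finset

namespace Pool.Agent.KK.E.H84

open Pool.Agent.KK.E.H77

theorem g_par (h02 : StmtE02) (h03 : StmtE03) (h06 : StmtE06) : StmtG12 := by
  classical
  intro V _ _ H X p q B δ ε hA hε hεδ hδ hD0
  set n : ℝ := (Fintype.card V : ℝ) with hn
  have hδ0 := hA.pos
  have hk2 : (2 : ℝ) ≤ ((p + q + 2 : ℕ) : ℝ) := by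
    have : 2 ≤ p + q + 2 := by omega
    exact_mod_cast this
  set k : ℝ := ((p + q + 2 : ℕ) : ℝ) with hk
  have hkε : k * ε ≤ δ / 100 := by linarith
  have hε2 : 2 * ε ≤ k * ε := mul_le_mul_of_nonneg_right hk2 hε
  have hn0 : 0 < n := by
    have h1 := hA.big
    have h2 : (0 : ℝ) < ((B + p + q + 2 : ℕ) : ℝ) := by
      have : 0 < B + p + q + 2 := by omega
      exact_mod_cast this
    have h3 : 0 < 100 * k ^ 2 * ((B + p + q + 2 : ℕ) : ℝ) := by positivity
    have h4 : 0 < δ * n := lt_of_lt_of_le h3 h1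
    exact (mul_pos_iff_of_pos_left hδ0).1 h4
  have lo := hA.lo
  have hi := hA.hi
  have lo' := hA.lo'
  have hi' := hA.hi'
  rw [← hn] at lo hi lo' hi'
  have hδn : δ * n ≤ n / 40 := by nlinarith
  have hδn0 : 0 < δ * n := mul_pos hδ0 hn0
  have hεn : ε * n ≤ δ * n / 200 := by nlinarith
  have hεn0 : 0 ≤ ε * n := mul_nonneg hε hn0.le
  have hX0 : (0 : ℝ) < X.card := by nlinarith
  have hXc0 : (0 : ℝ) < (Xᶜ).card := by nlinarith
  have hXne : X.Nonempty := Finset.card_pos.1 (by exact_mod_cast hX0)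
  have hXcne : (Xᶜ).Nonempty := Finset.card_pos.1 (by exact_mod_cast hXc0)
  have hsum : (X.card : ℝ) + ((Xᶜ).card : ℝ) = n := by
    rw [hn]
    exact_mod_cast Finset.card_add_card_compl X
  set X' : Finset V := univ.filter fun v => D H X {v} p (q + 1) ≤ D H X {v} (p + 1) q with hX'
  have h6 : ∀ v : V, 1 - 3 * δ ≤ D H X {v} (p + 1) q + D H X {v} p (q + 1) := fun v =>
    h06 V H X {v} p q B p q δ hA (by rw [Finset.card_singleton]; ring)
  have inX : ∀ v ∈ X', 9 / 20 ≤ D H X {v} (p + 1) q := by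
    intro v hv
    rw [hX', Finset.mem_filter] at hv
    have := h6 v
    linarith [hv.2]
  have outX : ∀ v, v ∉ X' → 9 / 20 ≤ D H X {v} p (q + 1) := by
    intro v hv
    rw [hX', Finset.mem_filter] at hv
    push Not at hv
    have := h6 v
    linarith [hv (Finset.mem_univ v)]
  have s1 : ((X \ X').card : ℝ) ≤ 3 * (ε * X.card) := by
    have a1 := avg1 h02 h03 H X p q hXne hXcne
    have a2 : ∑ v ∈ X, D H X {v} p (q + 1) ≤ ε * X.card := by
      rw [a1, div_le_iff₀ hX0] at hD0
      exact hD0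
    have a3 : ((X \ X').card : ℝ) * (9 / 20) ≤ ∑ v ∈ X, D H X {v} p (q + 1) := by
      calc ((X \ X').card : ℝ) * (9 / 20) = ∑ v ∈ X \ X', (9 / 20 : ℝ) := by
            rw [Finset.sum_const, nsmul_eq_mul]
        _ ≤ ∑ v ∈ X \ X', D H X {v} p (q + 1) :=
            Finset.sum_le_sum fun v hv => outX v (Finset.mem_sdiff.1 hv).2
        _ ≤ _ := Finset.sum_le_sum_of_subset_of_nonneg Finset.sdiff_subset
            fun v _ _ => D_nonneg _ _ _ _ _
    have a4 : 0 ≤ ε * (X.card : ℝ) := by positivity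
    linarith
  have s2 : ((X' \ X).card : ℝ) ≤ 3 * (ε * (Xᶜ).card) := by
    have a1 := avg2 h02 h03 H X p q hXne hXcne
    have a2 : ∑ v ∈ Xᶜ, D H X {v} (p + 1) q ≤ ε * (Xᶜ).card := by
      rw [a1, div_le_iff₀ hXc0] at hD0
      exact hD0
    have a3 : ((X' \ X).card : ℝ) * (9 / 20) ≤ ∑ v ∈ Xᶜ, D H X {v} (p + 1) q := by
      calc ((X' \ X).card : ℝ) * (9 / 20) = ∑ v ∈ X' \ X, (9 / 20 : ℝ) := by
            rw [Finset.sum_const, nsmul_eq_mul]
        _ ≤ ∑ v ∈ X' \ X, D H X {v} (p + 1) q :=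
            Finset.sum_le_sum fun v hv => inX v (Finset.mem_sdiff.1 hv).1
        _ ≤ _ := by
            apply Finset.sum_le_sum_of_subset_of_nonneg _ fun v _ _ => D_nonneg _ _ _ _ _
            intro v hv
            rw [Finset.mem_compl]
            exact (Finset.mem_sdiff.1 hv).2
    have a4 : 0 ≤ ε * ((Xᶜ).card : ℝ) := by positivity
    linarith
  have s3 : ((X \ X').card : ℝ) + ((X' \ X).card : ℝ) ≤ 3 * ε * n := by
    rw [← hsum]
    linarith
  have p1 : (0 : ℝ) ≤ ((X \ X').card : ℝ) := Nat.cast_nonneg _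
  have p2 : (0 : ℝ) ≤ ((X' \ X).card : ℝ) := Nat.cast_nonneg _
  have e1 : (X.card : ℝ) = ((X ∩ X').card : ℝ) + ((X \ X').card : ℝ) := by
    exact_mod_cast (Finset.card_inter_add_card_sdiff X X').symm
  have e2 : (X'.card : ℝ) = ((X ∩ X').card : ℝ) + ((X' \ X).card : ℝ) := by
    rw [Finset.inter_comm]
    exact_mod_cast (Finset.card_inter_add_card_sdiff X' X).symm
  have hsum' : (X'.card : ℝ) + ((X'ᶜ).card : ℝ) = n := by
    rw [hn]
    exact_mod_cast Finset.card_add_card_compl X'
  have c1 : Xᶜ \ X'ᶜ = X' \ X := by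
    ext v
    simp only [Finset.mem_sdiff, Finset.mem_compl, not_not]
    exact and_comm
  have c2 : X'ᶜ \ Xᶜ = X \ X' := by
    ext v
    simp only [Finset.mem_sdiff, Finset.mem_compl, not_not]
    exact and_comm
  have hτ : ∀ b : Bool, ∑ v, |H77.wt (sd X b) v - H77.wt (sd X' b) v| ≤ 24 * ε := by
    intro b
    cases b
    · simp only [sd, Bool.false_eq_true, if_false]
      apply wt_diff Xᶜ X'ᶜ n ε hn0
      · linarith
      · linarith
      · rw [c1, c2]
        linarith
    · simp only [sd, if_true]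
      apply wt_diff X X' n ε hn0
      · linarith
      · linarith
      · exact s3
  have hne : ∀ b : Bool, (sd X b).Nonempty := by
    intro b
    cases b
    · exact hXcne
    · exact hXne
  have hne' : ∀ b : Bool, (sd X' b).Nonempty := by
    intro b
    cases b
    · apply Finset.card_pos.1
      have : (0 : ℝ) < (X'ᶜ).card := by linarith
      exact_mod_cast this
    · apply Finset.card_pos.1
      have : (0 : ℝ) < X'.card := by linarith
      exact_mod_cast this
  have hl : ∀ (Z : Finset V) (a b : ℕ) (i : Fin a ⊕ Fin b), lets Z a b i =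
      sd Z (Sum.elim (fun _ => true) (fun _ => false) i) := by
    intro Z a b i
    rcases i with i | i <;> rfl
  have hch : ∀ (M : Finset V) (a b : ℕ), a + b ≤ p + q + 2 →
      |D H X M a b - D H X' M a b| ≤ δ := by
    intro M a b hab
    have h1 := change (lets X a b) (lets X' a b) (24 * ε)
      (fun i => by rw [hl]; exact hne _) (fun i => by rw [hl]; exact hne' _)
      (fun i => by rw [hl, hl]; exact hτ _) (fun f => M ∪ Finset.univ.image f ∈ H)
    rw [Fintype.card_sum, Fintype.card_fin, Fintype.card_fin] at h1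
    refine h1.trans ?_
    have h2 : ((a + b : ℕ) : ℝ) ≤ k := by
      rw [hk]
      exact_mod_cast hab
    have h3 : ((a + b : ℕ) : ℝ) * (24 * ε) ≤ k * (24 * ε) :=
      mul_le_mul_of_nonneg_right h2 (by positivity)
    linarith
  refine ⟨X', ?_, ⟨?_, ?_⟩, ?_, ?_⟩
  · have u1 : (((X \ X') ∪ (X' \ X)).card : ℝ) ≤ ((X \ X').card : ℝ) + ((X' \ X).card : ℝ) := by
      exact_mod_cast Finset.card_union_le _ _
    linarith
  · intro v hv
    have h1 := inX v hv
    have h2 := abs_le.1 (hch {v} (p + 1) q (by omega))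
    linarith [h2.2]
  · intro v hv
    have h1 := outX v hv
    have h2 := abs_le.1 (hch {v} p (q + 1) (by omega))
    linarith [h2.2]
  · refine ⟨hA.uni, hA.dirac, by linarith, by linarith, ?_, ?_, ?_, ?_, ?_⟩
    · rw [← hn]
      linarith
    · rw [← hn]
      linarith
    · rw [← hn]
      linarith
    · rw [← hn]
      linarith
    · have := hA.big
      rw [← hn] at this ⊢
      linarith
  · have h2 := abs_le.1 (hch ∅ (p + 1) (q + 1) (by omega))
    linarith [h2.1]

end Pool.Agent.KK.E.H84
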